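import Pool.Agent.P.MP_4bfc47_co.All.Rand

/-! For every density `p` with `n ^ (-1/2) ≪ p` that is not `n ^ (-o(1))` there is a cloud-forest
graph, not thundercloud-forest, with `n ^ (-1/m_2) ≪ p` and chromatic threshold at least `1/2`. -/

set_option autoImplicit false

namespace Pool.Agent.Results.MP_4bfc47_co.AllDensities
open Filter Topology Asymptotics

/-- `E n` holds with high probability in `G(n, p n)`. -/
def WithHighProb (p : ℕ → unitInterval) (E : ∀ n : ℕ, SimpleGraph (Fin n) → Prop) : Prop :=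
  Tendsto (fun n : ℕ => (SimpleGraph.binomialRandom (Fin n) (p n)).real {Γ | E n Γ}) atTop (𝓝 1)

open Classical in
/-- The chromatic threshold `δ_χ(H, p)`: the infimum of all `d > 0` such that for some `C`, with
high probability every `H`-free spanning subgraph `G` of `G(n, p)` with minimum degree at least
`d p n` has chromatic number at most `C`. -/
noncomputable def chromaticThreshold {W : Type} (H : SimpleGraph W) (p : ℕ → unitInterval) :
    EReal :=
  sInf {x : EReal | ∃ d : ℝ, x = (d : EReal) ∧ 0 < d ∧ ∃ C : ℕ, WithHighProb p fun n Γ =>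
    ∀ G : SimpleGraph (Fin n), G ≤ Γ → H.Free G → d * (p n : ℝ) * n ≤ (G.minDegree : ℝ) →
      G.chromaticNumber ≤ C}

/-- The 2-density `m_2(H)`. -/
noncomputable def twoDensity {W : Type} (H : SimpleGraph W) : ℝ :=
  sSup {x : ℝ | ∃ F : H.Subgraph, 3 ≤ F.verts.ncard ∧
    x = ((F.edgeSet.ncard : ℝ) - 1) / ((F.verts.ncard : ℝ) - 2)}

/-- The degree of `v` in the graph induced on the complement of `I`. -/
noncomputable def forestDegree {W : Type} (H : SimpleGraph W) (I : Set W) (v : W) : ℕ :=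
  (H.neighborSet v \ I).ncard

/-- `I` is a cloud of `H`. -/
def IsCloud {W : Type} (H : SimpleGraph W) (I : Set W) : Prop :=
  H.IsIndepSet I ∧ (H.induce Iᶜ).IsAcyclic ∧
  (∀ u v, u ∈ I → v ∉ I → H.Adj u v → forestDegree H I v ≤ 1) ∧
  ∀ v w, v ∉ I → w ∉ I → H.Adj v w → forestDegree H I v = 1 → forestDegree H I w = 1 →
    ¬ ((∃ u ∈ I, H.Adj v u) ∧ ∃ u ∈ I, H.Adj w u)

/-- Cloud-forest graphs. -/
def IsCloudForest {W : Type} (H : SimpleGraph W) : Prop := ∃ I, IsCloud H I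

/-- Thundercloud-forest graphs. -/
def IsThundercloudForest {W : Type} (H : SimpleGraph W) : Prop :=
  ∃ I, IsCloud H I ∧
    ∀ (v : W) (c : H.Walk v v), c.IsCycle → Odd c.length → 2 ≤ ({x | x ∈ c.support} ∩ I).ncard

open Pool.Agent.P.MP_4bfc47_co Pool.Agent.P.MP_4bfc47_co.All

variable {σ r : ℕ}

theorem nbr_c {i : Fin σ} {v : W σ r} : (HG σ r).Adj (vc i) v → ∃ j, v = vb j := by
  rcases v with i' | j | (u | j) <;> simp [adj_iff, rel]

theorem nbr_b {j : Lf r} {v : W σ r} :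
    (HG σ r).Adj (vb j) v → v ∉ Set.range vc → v = att (none, j) := by
  rcases j with j | d <;> rcases v with i' | (j' | d') | (u | j') <;> simp [adj_iff, rel, att]

theorem nbr_a {v : W σ r} : (HG σ r).Adj va v → (∃ d, v = vb (.inr d)) ∨ ∃ j, v = vz j := by
  rcases v with i' | (j' | d') | (u | j') <;> simp [adj_iff, rel]

theorem nbr_z {j : Fin r} {v : W σ r} : (HG σ r).Adj (vz j) v → v = va ∨ v = vb (.inl j) := by
  rcases v with i' | (j' | d') | (u | j') <;> simp [adj_iff, rel, eq_comm]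

theorem cloudForest : IsCloudForest (HG σ r) := by
  refine ⟨Set.range vc, ?_, ?_, ?_, ?_⟩
  · rintro _ ⟨i, rfl⟩ _ ⟨i', rfl⟩ _ h
    simpa using nbr_c h
  · refine acyclic_of_rank _
      (fun x => x.1.elim (fun _ => 0) (Sum.elim (Sum.elim (fun _ => 2) fun _ => 1)
        (Sum.elim (fun _ => 0) fun _ => 1))) ?_
    rintro ⟨i | j | (u | j), hv⟩ ⟨a, ha⟩ ⟨b, hb⟩ h1 h2 h3 h4
    · exact absurd ⟨i, rfl⟩ hv
    · exact Subtype.ext ((nbr_b h1 ha).trans (nbr_b h2 hb).symm)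
    · rcases nbr_a h1 with ⟨d, rfl⟩ | ⟨d, rfl⟩ <;> simp at h3
    · rcases nbr_z h1 with rfl | rfl
      · rcases nbr_z h2 with rfl | rfl
        · rfl
        · simp at h4
      · simp at h3
  · rintro _ v ⟨i, rfl⟩ _ h
    obtain ⟨j, rfl⟩ := nbr_c h
    exact (Set.ncard_le_one (Set.toFinite _)).mpr fun a ha b hb =>
      (nbr_b ha.1 ha.2).trans (nbr_b hb.1 hb.2).symm
  · rintro v w - - h - - ⟨⟨_, ⟨i, rfl⟩, h1⟩, _, ⟨i', rfl⟩, h2⟩
    obtain ⟨j, rfl⟩ := nbr_c h1.symm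
    obtain ⟨j', rfl⟩ := nbr_c h2.symm
    rcases j with j | j <;> rcases j' with j' | j' <;> simp [adj_iff, rel] at h

theorem not_thunder (hσ : 0 < σ) (hr : 3 ≤ r) : ¬ IsThundercloudForest (HG σ r) := by
  rintro ⟨I, ⟨h1, -, h3, h4⟩, h5⟩
  have ind : ∀ {x y}, (HG σ r).Adj x y → x ∈ I → y ∉ I := fun h hx hy => h1 hx hy h.ne h
  have one : ∀ {u v x y}, u ∈ I → (HG σ r).Adj u v → (HG σ r).Adj v x → (HG σ r).Adj v y →
      x ∉ I → y ∉ I → x = y := fun hu h hx hy nx ny =>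
    (Set.ncard_le_one (Set.toFinite _)).mp (h3 _ _ hu (ind h hu) h) _ ⟨hx, nx⟩ _ ⟨hy, ny⟩
  let i0 : Fin σ := ⟨0, hσ⟩
  have nb : ∀ j, vb j ∉ I := by
    intro j hj
    have a1 : ∀ k k', vb k ∉ I → vb k' ∉ I → k = k' := fun k k' hk hk' => by
      simpa using one hj (adj_cb i0 j).symm (adj_cb i0 k) (adj_cb i0 k') hk hk'
    obtain ⟨d, hd⟩ : ∃ d, vb (.inr d) ∈ I := by
      by_contra hn
      push Not at hn
      simpa using a1 _ _ (hn 0) (hn 1)
    have a2 : ∀ k k', vz k ∉ I → vz k' ∉ I → k = k' := fun k k' hk hk' => by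
      simpa using one hd (adj_ab d).symm (adj_az k) (adj_az k') hk hk'
    have a3 : ∀ k k', vz k ∈ I → vz k' ∈ I → k = k' := fun k k' hk hk' => by
      simpa using a1 _ _ (ind (adj_zb k) hk) (ind (adj_zb k') hk')
    by_cases b0 : vz ⟨0, by omega⟩ ∈ I <;> by_cases b1 : vz ⟨1, by omega⟩ ∈ I <;>
      by_cases b2 : vz ⟨2, by omega⟩ ∈ I <;>
      first
        | simpa using a3 _ _ b0 b1 | simpa using a3 _ _ b0 b2 | simpa using a3 _ _ b1 b2
        | simpa using a2 _ _ b0 b1 | simpa using a2 _ _ b0 b2 | simpa using a2 _ _ b1 b2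
  let j : Fin r := ⟨0, by omega⟩
  have cyc : ∀ i, vc i ∈ I ∧ (va ∈ I ∨ vz j ∈ I) := by
    intro i
    have h := h5 va (.cons (adj_az j) (.cons (adj_zb j) (.cons (adj_cb i _).symm
      (.cons (adj_cb i (.inr 0)) (.cons (adj_ab 0).symm .nil))))) (by
        simp [SimpleGraph.Walk.isCycle_def, SimpleGraph.Walk.isTrail_def]) (by simp [Nat.odd_iff])
    obtain ⟨x, ⟨hx, hxI⟩, y, ⟨hy, hyI⟩, hne⟩ := (Set.one_lt_ncard (Set.toFinite _)).mp h
    simp only [SimpleGraph.Walk.support_cons, SimpleGraph.Walk.support_nil, List.mem_cons,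
      List.not_mem_nil, Set.mem_ofPred_eq, or_false] at hx hy
    have := @ind _ _ (adj_az j)
    have := nb (.inl j)
    have := nb (.inr 0)
    rcases hx with rfl | rfl | rfl | rfl | rfl | rfl <;>
      rcases hy with rfl | rfl | rfl | rfl | rfl | rfl <;> tauto
  by_cases ha : va ∈ I
  · have hz := ind (adj_az j) ha
    have d1 : ∀ {u v x}, u ∈ I → (HG σ r).Adj u v → (HG σ r).Adj v x → x ∉ I →
        forestDegree (HG σ r) I v = 1 := fun hu h hx nx => le_antisymm (h3 _ _ hu (ind h hu) h)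
      ((Set.ncard_pos (Set.toFinite _)).mpr ⟨_, hx, nx⟩)
    exact h4 _ _ hz (nb _) (adj_zb j) (d1 ha (adj_az j) (adj_zb j) (nb _))
      (d1 (cyc i0).1 (adj_cb i0 _) (adj_zb j).symm hz)
      ⟨⟨_, ha, (adj_az j).symm⟩, _, (cyc i0).1, (adj_cb i0 _).symm⟩
  · simpa using one ((cyc i0).2.resolve_left ha) (adj_az j).symm (adj_ab 0) (adj_ab 1) (nb _) (nb _)

theorem twoDensity_lt (hσ : 2 ≤ σ) : 0 < twoDensity (HG σ r) ∧ twoDensity (HG σ r) < σ := by
  have N0 : (0 : ℝ) < Nat.card (W σ r) := by exact_mod_cast Nat.card_pos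
  have hb : ∀ x ∈ {x : ℝ | ∃ F : (HG σ r).Subgraph, 3 ≤ F.verts.ncard ∧
      x = ((F.edgeSet.ncard : ℝ) - 1) / ((F.verts.ncard : ℝ) - 2)},
      x ≤ σ - 1 / Nat.card (W σ r) := by
    rintro x ⟨F, h3, rfl⟩
    have h1 : (F.edgeSet.ncard : ℝ) + 2 * σ ≤ σ * F.verts.ncard := by
      exact_mod_cast edge_bound hσ F h3
    have h2 : (F.verts.ncard : ℝ) ≤ Nat.card (W σ r) := by exact_mod_cast Set.ncard_le_card _
    have h4 : (3 : ℝ) ≤ F.verts.ncard := by exact_mod_cast h3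
    have h5 : 1 / (Nat.card (W σ r) : ℝ) * (F.verts.ncard - 2) ≤ 1 := by
      rw [one_div, inv_mul_le_iff₀ N0]; linarith
    rw [div_le_iff₀ (by linarith)]
    linarith
  have h3 : 3 ≤ (⊤ : (HG σ r).Subgraph).verts.ncard := by simp; omega
  have h2 : 1 < (⊤ : (HG σ r).Subgraph).edgeSet.ncard :=
    (Set.one_lt_ncard (Set.toFinite _)).mpr ⟨s(va, vb (.inr 0)), adj_ab 0, s(va, vb (.inr 1)),
      adj_ab 1, by simp⟩
  refine ⟨lt_of_lt_of_le ?_ (le_csSup ⟨_, hb⟩ ⟨⊤, h3, rfl⟩),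
    (csSup_le (by exact ⟨_, ⊤, h3, rfl⟩) hb).trans_lt (sub_lt_self _ (by positivity))⟩
  have h4 : (3 : ℝ) ≤ (⊤ : (HG σ r).Subgraph).verts.ncard := by exact_mod_cast h3
  have h5 : (1 : ℝ) < (⊤ : (HG σ r).Subgraph).edgeSet.ncard := by exact_mod_cast h2
  exact div_pos (by linarith) (by linarith)

theorem half_le (hσ : 2 ≤ σ) (p : ℕ → unitInterval)
    (hp : ∀ (C : ℕ) (ε : ℝ), 0 < ε → ε < 1 → ∃ᶠ n : ℕ in atTop, ∃ m,
      Nm σ r C m n (p n) ε ∧ 8 * (n * Real.exp (-(ε ^ 2 * m))) ≤ 1 / 4) :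
    (1 / 2 : EReal) ≤ chromaticThreshold (HG σ (r + 1)) p := by
  classical
  refine le_sInf ?_
  rintro x ⟨d, rfl, hd, C, hC⟩
  have : (1 / 2 : EReal) = ((1 / 2 : ℝ) : EReal) := by
    rw [EReal.coe_div]; rfl
  rw [this, EReal.coe_le_coe_iff]
  by_contra hlt
  push Not at hlt
  obtain ⟨n, ⟨m, h1, h2⟩, h3⟩ := ((hp C ((1 / 2 - d) / 3) (by linarith) (by linarith)).and_eventually
    (hC.eventually_const_lt (show (1 / 2 : ℝ) < 1 by norm_num))).exists
  have h4 := bound_all (V := Fin n) (Ω := (⊤ : SimpleGraph (Fin n)).edgeFinset) hσ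
    (by rwa [Fintype.card_fin]) (by rwa [Fintype.card_fin]) (fun x y h => by simpa using h)
  refine absurd (h3.trans_le ((real_le_Pr _ _ _ ?_).trans h4)) (lt_irrefl _)
  rintro Γ R hR hΓ ⟨G, a1, a2, a3, a4⟩
  have : Nonempty (Fin n) := ⟨⟨0, by exact_mod_cast h1.n1⟩⟩
  refine a4 (SimpleGraph.chromaticNumber_le_iff_colorable.mp (hΓ G ?_ a2 ?_))
  · intro x y h
    rw [← SimpleGraph.mem_edgeSet, ← hR]
    exact a1 x y h
  · obtain ⟨v, hv⟩ := G.exists_minimal_degree_vertex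
    have h2 := a3 v
    rw [hv, ← SimpleGraph.card_neighborSet_eq_degree, ← Nat.card_eq_fintype_card,
      Nat.card_coe_set_eq]
    refine le_trans (le_of_eq ?_) h2
    rw [Fintype.card_fin]; ring

/-- For every `p` with `n ^ (-1/2) ≪ p` and `p ≤ n ^ (-c)` infinitely often there is a finite
cloud-forest graph `H`, not thundercloud-forest, with `max (n ^ (-1/m_2), n ^ (-1/2)) ≪ p` and
chromatic threshold at least `1/2`. -/
theorem result (p : ℕ → unitInterval)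
    (h1 : (fun n : ℕ => (n : ℝ) ^ (-(1 / 2) : ℝ)) =o[atTop] fun n => (p n : ℝ))
    (h2 : ∃ c : ℝ, 0 < c ∧ ∃ᶠ n : ℕ in atTop, (p n : ℝ) ≤ (n : ℝ) ^ (-c)) :
    ∃ (W : Type) (_ : Finite W) (H : SimpleGraph W),
      IsCloudForest H ∧ ¬ IsThundercloudForest H ∧
      ((fun n : ℕ => max ((n : ℝ) ^ (-1 / twoDensity H)) ((n : ℝ) ^ (-(1 / 2) : ℝ))) =o[atTop]
        fun n => (p n : ℝ)) ∧
      (1 / 2 : EReal) ≤ chromaticThreshold H p := by
  classical
  have p0 : ∀ n, (0 : ℝ) ≤ p n := fun n => (p n).2.1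
  have h3 : ∀ c : ℝ, 0 < c → ∀ᶠ n : ℕ in atTop, (n : ℝ) ^ (-(1 / 2) : ℝ) ≤ c * p n := fun c hc => by
    filter_upwards [isLittleO_iff.mp h1 hc] with n hn
    rwa [Real.norm_of_nonneg (by positivity), Real.norm_of_nonneg (p0 n)] at hn
  have h4 := h3 1 one_pos
  simp only [one_mul] at h4
  have ex : ∃ σ : ℕ, 2 ≤ σ ∧ ∃ γ : ℝ, 1 / ((σ : ℝ) + 1) < γ ∧
      ∃ᶠ n : ℕ in atTop, (p n : ℝ) ≤ (n : ℝ) ^ (-γ) := by
    obtain ⟨c, c0, hc⟩ := h2
    obtain ⟨k, hk⟩ := exists_nat_one_div_lt c0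
    refine ⟨k + 2, by omega, c, lt_of_le_of_lt ?_ hk, hc⟩
    push_cast
    exact one_div_le_one_div_of_le (by positivity) (by linarith)
  obtain ⟨hσ, γ, hγ, h5⟩ := Nat.find_spec ex
  have h6 : ∀ γ' : ℝ, 1 / (Nat.find ex : ℝ) < γ' → ∀ᶠ n : ℕ in atTop, (n : ℝ) ^ (-γ') ≤ p n := by
    intro γ' hγ'
    rcases hσ.eq_or_lt with e | e
    · rw [← e] at hγ'
      filter_upwards [h4, eventually_ge_atTop 1] with n hn hn'
      refine (Real.rpow_le_rpow_of_exponent_le (by exact_mod_cast hn') ?_).trans hn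
      push_cast at hγ'; linarith
    · have := Nat.find_min ex (m := Nat.find ex - 1) (by omega)
      push Not at this
      refine (this (by omega) γ' ?_).mono fun n hn => hn.le
      rwa [Nat.cast_sub (by omega), Nat.cast_one, sub_add_cancel]
  generalize Nat.find ex = σ at *
  obtain ⟨r, hr, h7⟩ := exists_params σ hγ (fun n => p n) h5 h4
  refine ⟨_, inferInstance, HG σ (r + 1), cloudForest, not_thunder (by omega) (by omega),
    isLittleO_iff.mpr fun c hc => ?_, half_le hσ p h7⟩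
  obtain ⟨m0, m1⟩ := twoDensity_lt (r := r + 1) hσ
  obtain ⟨γ', g1, g2⟩ := exists_between (one_div_lt_one_div_of_lt m0 m1)
  have l1 : Tendsto (fun n : ℕ => (n : ℝ) ^ (-(1 / twoDensity (HG σ (r + 1)) - γ'))) atTop (𝓝 0) :=
    (tendsto_rpow_neg_atTop (sub_pos.mpr g2)).comp tendsto_natCast_atTop_atTop
  filter_upwards [h3 c hc, h6 γ' g1, l1.eventually_le_const hc, eventually_gt_atTop 0]
    with n a1 a2 a3 a4
  have n0 : (0 : ℝ) < n := by exact_mod_cast a4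
  rw [Real.norm_of_nonneg (by positivity), Real.norm_of_nonneg (p0 n)]
  refine max_le (le_trans (le_of_eq ?_) (mul_le_mul a3 a2 (by positivity) hc.le)) a1
  rw [← Real.rpow_add n0]
  congr 1; ring

end Pool.Agent.Results.MP_4bfc47_co.AllDensities
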