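import Pool.Agent.P.MP_4bfc47_co.Link

/-! A cloud-forest graph that is not thundercloud-forest and whose chromatic threshold in
`G(n,p)`, `p = n ^ (-8/17)`, is at least `1/2`. -/

set_option autoImplicit false

namespace Pool.Agent.Results.MP_4bfc47_co.Counterexample
open Filter Topology

/-- `E n` holds with high probability in `G(n, p n)`. -/
def WithHighProb (p : ℕ → unitInterval) (E : ∀ n : ℕ, SimpleGraph (Fin n) → Prop) : Prop :=
  Tendsto (fun n : ℕ => (SimpleGraph.binomialRandom (Fin n) (p n)).real {Γ | E n Γ}) atTop (𝓝 1)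

open Classical in
/-- The chromatic threshold `δ_χ(H, p)`: the infimum of all `d > 0` such that for some `C`, with
high probability every `H`-free spanning subgraph `G` of `G(n, p)` with minimum degree at least
`d p n` has chromatic number at most `C`. -/
noncomputable def chromaticThreshold {W : Type} (H : SimpleGraph W) (p : ℕ → unitInterval) :
    EReal :=
  sInf {x : EReal | ∃ d : ℝ, x = (d : EReal) ∧ 0 < d ∧ ∃ C : ℕ, WithHighProb p fun n Γ =>
    ∀ G : SimpleGraph (Fin n), G ≤ Γ → H.Free G → d * (p n : ℝ) * n ≤ (G.minDegree : ℝ) →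
      G.chromaticNumber ≤ C}

/-- The 2-density `m_2(H)`. -/
noncomputable def twoDensity {W : Type} (H : SimpleGraph W) : ℝ :=
  sSup {x : ℝ | ∃ F : H.Subgraph, 3 ≤ F.verts.ncard ∧
    x = ((F.edgeSet.ncard : ℝ) - 1) / ((F.verts.ncard : ℝ) - 2)}

/-- The degree of `v` in the graph induced on the complement of `I`. -/
noncomputable def forestDegree {W : Type} (H : SimpleGraph W) (I : Set W) (v : W) : ℕ :=
  (H.neighborSet v \ I).ncard

/-- `I` is a cloud of `H`. -/
def IsCloud {W : Type} (H : SimpleGraph W) (I : Set W) : Prop :=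
  H.IsIndepSet I ∧ (H.induce Iᶜ).IsAcyclic ∧
  (∀ u v, u ∈ I → v ∉ I → H.Adj u v → forestDegree H I v ≤ 1) ∧
  ∀ v w, v ∉ I → w ∉ I → H.Adj v w → forestDegree H I v = 1 → forestDegree H I w = 1 →
    ¬ ((∃ u ∈ I, H.Adj v u) ∧ ∃ u ∈ I, H.Adj w u)

/-- Cloud-forest graphs. -/
def IsCloudForest {W : Type} (H : SimpleGraph W) : Prop := ∃ I, IsCloud H I

/-- Thundercloud-forest graphs. -/
def IsThundercloudForest {W : Type} (H : SimpleGraph W) : Prop :=
  ∃ I, IsCloud H I ∧
    ∀ (v : W) (c : H.Walk v v), c.IsCycle → Odd c.length → 2 ≤ ({x | x ∈ c.support} ∩ I).ncard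

/-- `K_{3,3}` with parts `{0,1,2}` and `{3,4,5}` and the edge `03` subdivided by the vertex `6`. -/
def subdividedK33 : SimpleGraph (Fin 7) :=
  SimpleGraph.fromRel fun i j => (i, j) ∈
    [(0, 4), (0, 5), (1, 3), (1, 4), (1, 5), (2, 3), (2, 4), (2, 5), (0, 6), (6, 3)]

instance : DecidableRel subdividedK33.Adj := fun i j => by
  unfold subdividedK33; rw [SimpleGraph.fromRel_adj]; infer_instance

open Pool.Agent.P.MP_4bfc47_co

theorem forestDegree_coe (I : Finset (Fin 7)) (v : Fin 7) :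
    forestDegree subdividedK33 I v = (subdividedK33.neighborFinset v \ I).card := by
  rw [forestDegree, ← Set.ncard_coe_finset]; simp

theorem cloudForest : IsCloudForest subdividedK33 := by
  refine ⟨({1, 2} : Finset (Fin 7)), ?_, ?_, ?_, ?_⟩
  · intro x hx y hy
    revert x y
    simp only [Finset.mem_coe]
    decide
  · refine acyclic_of_rank _ (fun x => ![0, 0, 0, 4, 1, 2, 3] x.1) ?_
    rintro ⟨v, hv⟩ ⟨a, ha⟩ ⟨b, hb⟩
    simp only [SimpleGraph.induce_adj, Subtype.mk.injEq]
    simp only [Set.mem_compl_iff, Finset.mem_coe] at hv ha hb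
    revert v a b
    decide
  · simp only [forestDegree_coe, Finset.mem_coe]; decide
  · simp only [forestDegree_coe, Finset.mem_coe]; decide

theorem five_cycle {I : Finset (Fin 7)}
    (h : ∀ (v : Fin 7) (c : subdividedK33.Walk v v), c.IsCycle → Odd c.length →
      2 ≤ ({x | x ∈ c.support} ∩ (I : Set (Fin 7))).ncard) (a b : Fin 7) (ha : a = 1 ∨ a = 2)
    (hb : b = 4 ∨ b = 5) : 2 ≤ (({0, 6, 3, a, b} : Finset (Fin 7)) ∩ I).card := by
  have e1 : subdividedK33.Adj 0 6 := by decide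
  have e2 : subdividedK33.Adj 6 3 := by decide
  have e3 : subdividedK33.Adj 3 a := by rcases ha with rfl | rfl <;> decide
  have e4 : subdividedK33.Adj a b := by
    rcases ha with rfl | rfl <;> rcases hb with rfl | rfl <;> decide
  have e5 : subdividedK33.Adj b 0 := by rcases hb with rfl | rfl <;> decide
  have := h 0 (.cons e1 (.cons e2 (.cons e3 (.cons e4 (.cons e5 .nil))))) (by
    rw [SimpleGraph.Walk.isCycle_def, SimpleGraph.Walk.isTrail_def]
    rcases ha with rfl | rfl <;> rcases hb with rfl | rfl <;> simp) (by simp [Nat.odd_iff])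
  rw [← Set.ncard_coe_finset]
  refine this.trans (le_of_eq ?_)
  congr 1
  ext x
  simp only [SimpleGraph.Walk.support_cons, SimpleGraph.Walk.support_nil, List.mem_cons,
    List.not_mem_nil, Set.mem_inter_iff, Set.mem_ofPred_eq, Finset.coe_inter, Finset.coe_insert,
    Finset.coe_singleton, Set.mem_insert_iff, Set.mem_singleton_iff]
  tauto

set_option synthInstance.maxSize 4096 in
theorem not_thunder : ¬ IsThundercloudForest subdividedK33 := by
  rintro ⟨I, ⟨h1, -, h3, h4⟩, h5⟩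
  obtain ⟨I, rfl⟩ := (Set.toFinite I).exists_finset_coe
  have key : ∀ I : Finset (Fin 7), (∀ x ∈ I, ∀ y ∈ I, x ≠ y → ¬ subdividedK33.Adj x y) →
      (∀ u v, u ∈ I → v ∉ I → subdividedK33.Adj u v →
        (subdividedK33.neighborFinset v \ I).card ≤ 1) →
      (∀ v w, v ∉ I → w ∉ I → subdividedK33.Adj v w →
        (subdividedK33.neighborFinset v \ I).card = 1 →
        (subdividedK33.neighborFinset w \ I).card = 1 →
        ¬ ((∃ u ∈ I, subdividedK33.Adj v u) ∧ ∃ u ∈ I, subdividedK33.Adj w u)) →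
      2 ≤ (({0, 6, 3, 1, 4} : Finset (Fin 7)) ∩ I).card →
      2 ≤ (({0, 6, 3, 1, 5} : Finset (Fin 7)) ∩ I).card →
      2 ≤ (({0, 6, 3, 2, 4} : Finset (Fin 7)) ∩ I).card →
      2 ≤ (({0, 6, 3, 2, 5} : Finset (Fin 7)) ∩ I).card → False := by
    decide +kernel
  simp only [forestDegree_coe, Finset.mem_coe] at h3 h4
  exact key I (fun x hx y hy hne => h1 hx hy hne) h3 h4 (five_cycle h5 1 4 (.inl rfl) (.inl rfl))
    (five_cycle h5 1 5 (.inl rfl) (.inr rfl)) (five_cycle h5 2 4 (.inr rfl) (.inl rfl))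
    (five_cycle h5 2 5 (.inr rfl) (.inr rfl))

theorem twoDensity_eq : twoDensity subdividedK33 = 9 / 5 := by
  refine IsGreatest.csSup_eq ⟨⟨⊤, ?_, ?_⟩, ?_⟩
  · simp
  · have : (⊤ : subdividedK33.Subgraph).edgeSet.ncard = 10 := by
      rw [SimpleGraph.Subgraph.edgeSet_top, ← SimpleGraph.coe_edgeFinset, Set.ncard_coe_finset]
      decide +kernel
    rw [this]; simp; norm_num
  · rintro x ⟨F, h3, rfl⟩
    obtain ⟨T, hT⟩ := (Set.toFinite F.verts).exists_finset_coe
    have key : ∀ T : Finset (Fin 7), 3 ≤ T.card →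
        5 * (subdividedK33.edgeFinset.filter fun e => ∀ v ∈ e, v ∈ T).card + 13 ≤ 9 * T.card := by
      decide +kernel
    rw [← hT, Set.ncard_coe_finset] at h3 ⊢
    have h4 := key T h3
    have h5 : F.edgeSet.ncard ≤
        (subdividedK33.edgeFinset.filter fun e => ∀ v ∈ e, v ∈ T).card := by
      rw [← Set.ncard_coe_finset]
      refine Set.ncard_le_ncard (fun e he => ?_) (Set.toFinite _)
      rw [Finset.mem_coe, Finset.mem_filter, SimpleGraph.mem_edgeFinset]
      refine ⟨F.edgeSet_subset he, fun v hv => ?_⟩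
      have := F.mem_verts_of_mem_edge he hv
      rwa [← hT] at this
    have h6 : 5 * F.edgeSet.ncard + 13 ≤ 9 * T.card := by omega
    have h7 : (5 : ℝ) * F.edgeSet.ncard + 13 ≤ 9 * T.card := by exact_mod_cast h6
    have h8 : (3 : ℝ) ≤ T.card := by exact_mod_cast h3
    rw [div_le_iff₀ (by linarith)]
    linarith

theorem free_of_noSub {V : Type} {G : SimpleGraph V} (h : NoSub G) : subdividedK33.Free G := by
  rintro ⟨f⟩
  have ne : ∀ i j : Fin 7, i ≠ j → f i ≠ f j := fun i j hij => f.injective.ne hij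
  have ad : ∀ i j : Fin 7, subdividedK33.Adj i j → G.Adj (f i) (f j) :=
    fun i j hij => f.toHom.map_adj hij
  exact h (f 0) (f 1) (f 2) (f 3) (f 4) (f 5) (f 6) (ne _ _ (by decide)) (ne _ _ (by decide))
    (ne _ _ (by decide)) (ne _ _ (by decide)) (ne _ _ (by decide)) (ne _ _ (by decide))
    (ad _ _ (by decide)) (ad _ _ (by decide)) (ad _ _ (by decide)) (ad _ _ (by decide))
    (ad _ _ (by decide)) (ad _ _ (by decide)) (ad _ _ (by decide)) (ad _ _ (by decide))
    (ad _ _ (by decide)) (ad _ _ (by decide))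

theorem half_le (p : ℕ → unitInterval) (hp : ∀ n : ℕ, (p n : ℝ) = (n : ℝ) ^ (-(8 / 17) : ℝ)) :
    (1 / 2 : EReal) ≤ chromaticThreshold subdividedK33 p := by
  classical
  refine le_sInf ?_
  rintro x ⟨d, rfl, hd, C, hC⟩
  have : (1 / 2 : EReal) = ((1 / 2 : ℝ) : EReal) := by
    rw [EReal.coe_div]; rfl
  rw [this, EReal.coe_le_coe_iff]
  by_contra hlt
  push Not at hlt
  obtain ⟨n₀, hn₀⟩ := eventually_atTop.mp (hC.eventually_const_lt (show (1 / 2 : ℝ) < 1 by norm_num))
  obtain ⟨j, m, hm, hj, hbig, hexp, hn⟩ := exists_m C (ε := (1 / 2 - d) / 3) (by linarith) n₀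
  have hm0 : 0 < m := by rw [hm]; have : 0 < j := by omega
                         positivity
  have hpm : (p (m ^ 17) : ℝ) = ((m : ℝ) ^ 8)⁻¹ := by
    rw [hp, Nat.cast_pow, ← Real.rpow_natCast, ← Real.rpow_mul (Nat.cast_nonneg m),
      ← Real.rpow_natCast, ← Real.rpow_neg (Nat.cast_nonneg m)]
    norm_num
  have h1 := bound_at (V := Fin (m ^ 17)) C j m hm hj (Fintype.card_fin _)
    (ε := (1 / 2 - d) / 3) (by linarith) (by linarith) hbig hexp hpm
    (⊤ : SimpleGraph (Fin (m ^ 17))).edgeFinset (fun x y h => by simpa using h)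
  refine absurd ((hn₀ _ hn).trans_le ((real_le_Pr _ _ _ ?_).trans h1)) (lt_irrefl _)
  rintro Γ R hR hΓ ⟨G, a1, a2, a3, a4⟩
  have : Nonempty (Fin (m ^ 17)) := ⟨⟨0, by positivity⟩⟩
  refine a4 (SimpleGraph.chromaticNumber_le_iff_colorable.mp (hΓ G ?_ (free_of_noSub a2) ?_))
  · intro x y h
    rw [← SimpleGraph.mem_edgeSet, ← hR]
    exact a1 x y h
  · obtain ⟨v, hv⟩ := G.exists_minimal_degree_vertex
    have h2 := a3 v
    rw [hv, ← SimpleGraph.card_neighborSet_eq_degree, ← Nat.card_eq_fintype_card,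
      Nat.card_coe_set_eq]
    refine le_trans (le_of_eq ?_) h2
    push_cast; ring

/-- `K_{3,3}` with one subdivided edge is a cloud-forest graph, is not a thundercloud-forest graph,
and for `p = n ^ (-8/17)`, which satisfies `max (n ^ (-1/m_2), n ^ (-1/2)) ≪ p ≪ 1`, its chromatic
threshold is at least `1/2`, hence different from `1/3`. -/
theorem result :
    IsCloudForest subdividedK33 ∧ ¬ IsThundercloudForest subdividedK33 ∧
    ∃ p : ℕ → unitInterval, (∀ n : ℕ, (p n : ℝ) = (n : ℝ) ^ (-(8 / 17) : ℝ)) ∧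
      Tendsto (fun n : ℕ => max ((n : ℝ) ^ (-1 / twoDensity subdividedK33))
        ((n : ℝ) ^ (-(1 / 2) : ℝ)) / (p n : ℝ)) atTop (𝓝 0) ∧
      Tendsto (fun n : ℕ => (p n : ℝ)) atTop (𝓝 0) ∧
      (1 / 2 : EReal) ≤ chromaticThreshold subdividedK33 p ∧
      chromaticThreshold subdividedK33 p ≠ 1 / 3 := by
  have hmem : ∀ n : ℕ, (n : ℝ) ^ (-(8 / 17) : ℝ) ∈ unitInterval := by
    intro n
    refine ⟨by positivity, ?_⟩
    rcases Nat.eq_zero_or_pos n with rfl | hn
    · rw [Nat.cast_zero, Real.zero_rpow (by norm_num)]; norm_num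
    · exact Real.rpow_le_one_of_one_le_of_nonpos (by exact_mod_cast hn) (by norm_num)
  have hlim : ∀ y : ℝ, 0 < y → Tendsto (fun n : ℕ => (n : ℝ) ^ (-y)) atTop (𝓝 0) := fun y hy =>
    (tendsto_rpow_neg_atTop hy).comp tendsto_natCast_atTop_atTop
  have hh := half_le (fun n => ⟨_, hmem n⟩) fun _ => rfl
  refine ⟨cloudForest, not_thunder, fun n => ⟨_, hmem n⟩, fun _ => rfl, ?_,
    hlim _ (by norm_num), hh, ?_⟩
  · refine (hlim (1 / 34) (by norm_num)).congr' ?_
    filter_upwards [eventually_ge_atTop 1] with n hn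
    have hn' : (1 : ℝ) ≤ n := by exact_mod_cast hn
    rw [twoDensity_eq, max_eq_right (Real.rpow_le_rpow_of_exponent_le hn' (by norm_num)),
      ← Real.rpow_sub (by linarith)]
    norm_num
  · intro h
    rw [h] at hh
    have e2 : (1 / 2 : EReal) = ((1 / 2 : ℝ) : EReal) := by rw [EReal.coe_div]; rfl
    have e3 : (1 / 3 : EReal) = ((1 / 3 : ℝ) : EReal) := by rw [EReal.coe_div]; rfl
    rw [e2, e3, EReal.coe_le_coe_iff] at hh
    norm_num at hh

end Pool.Agent.Results.MP_4bfc47_co.Counterexample
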